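import Mathlib
import Pool.Agent.Y382.PAR.Stm

/-!
# Groups of order nine
-/

set_option autoImplicit false

namespace Pool.Agent.Y994.PAR

open Pool.Agent.Y382.PAR

universe u

/-- additive version with the computable sign -/
def AP (X : Type) [AddGroup X] [Fintype X] [DecidableEq X] : Prop :=
  ∀ ε δ : ℤˣ, ∃ f F : Equiv.Perm X, (∀ x, F x = x + f x) ∧ Equiv.Perm.sign f = ε ∧ Equiv.Perm.sign F = δ

theorem transport {X : Type} [AddGroup X] [Fintype X] [DecidableEq X] {G : Type u} [Group G] [Finite G]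
    (e : X ≃ G) (he : ∀ x y, e (x + y) = e x * e y) (h : AP X) : AllPar G := by
  classical
  have := Fintype.ofFinite G
  intro ε δ
  obtain ⟨f, F, h1, h2, h3⟩ := h ε δ
  refine ⟨e.permCongr f, e.permCongr F, ?_, ?_, ?_⟩
  · intro x
    rw [Equiv.permCongr_apply, Equiv.permCongr_apply, h1, he, Equiv.apply_symm_apply]
  · rw [sgn_eq, Equiv.Perm.sign_permCongr, h2]
  · rw [sgn_eq, Equiv.Perm.sign_permCongr, h3]

/-- a permutation from an injective function on a finite type -/
def mk9 (f g : Fin 9 → Fin 9) (h1 : ∀ x, g (f x) = x) (h2 : ∀ x, f (g x) = x) : Equiv.Perm (Fin 9) := ⟨f, g, h1, h2⟩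

theorem ap9' : ∀ ε δ : ℤˣ, ∃ f F : Equiv.Perm (Fin 9), (∀ x, F x = x + f x) ∧
    Equiv.Perm.sign f = ε ∧ Equiv.Perm.sign F = δ := by
  intro ε δ
  rcases Int.units_eq_one_or ε with rfl | rfl <;> rcases Int.units_eq_one_or δ with rfl | rfl
  · exact ⟨mk9 ![0,1,2,3,4,5,6,7,8] ![0,1,2,3,4,5,6,7,8] (by decide) (by decide),
      mk9 ![0,2,4,6,8,1,3,5,7] ![0,5,1,6,2,7,3,8,4] (by decide) (by decide),
      by decide +kernel, by decide +kernel, by decide +kernel⟩
  · exact ⟨mk9 ![0,1,4,5,8,2,7,3,6] ![0,1,5,7,2,3,8,6,4] (by decide) (by decide),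
      mk9 ![0,2,6,8,3,7,4,1,5] ![0,7,1,4,6,8,2,5,3] (by decide) (by decide),
      by decide +kernel, by decide +kernel, by decide +kernel⟩
  · exact ⟨mk9 ![0,1,2,5,3,7,4,8,6] ![0,1,2,4,6,3,8,5,7] (by decide) (by decide),
      mk9 ![0,2,4,8,7,3,1,6,5] ![0,6,1,5,2,8,7,4,3] (by decide) (by decide),
      by decide +kernel, by decide +kernel, by decide +kernel⟩
  · exact ⟨mk9 ![0,1,2,4,6,3,8,5,7] ![0,1,2,5,3,7,4,8,6] (by decide) (by decide),
      mk9 ![0,2,4,7,1,8,5,3,6] ![0,4,1,7,2,6,8,3,5] (by decide) (by decide),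
      by decide +kernel, by decide +kernel, by decide +kernel⟩

theorem ap9 : AP (ZMod 9) := ap9'

/-- the coding of the elements of the elementary abelian group -/
def cod : Fin 9 ≃ ZMod 3 × ZMod 3 where
  toFun i := (((i.val / 3 : ℕ) : ZMod 3), ((i.val % 3 : ℕ) : ZMod 3))
  invFun x := ⟨3 * x.1.val + x.2.val, by
    have h1 := x.1.val_lt
    have h2 := x.2.val_lt
    omega⟩
  left_inv := by decide +kernel
  right_inv := by decide +kernel

theorem ap33 : AP (ZMod 3 × ZMod 3) := by
  intro ε δ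
  rcases Int.units_eq_one_or ε with rfl | rfl <;> rcases Int.units_eq_one_or δ with rfl | rfl
  · exact ⟨cod.permCongr (mk9 ![0,1,2,3,4,5,6,7,8] ![0,1,2,3,4,5,6,7,8] (by decide) (by decide)),
      cod.permCongr (mk9 ![0,2,1,6,8,7,3,5,4] ![0,2,1,6,8,7,3,5,4] (by decide) (by decide)),
      by decide +kernel, by rw [Equiv.Perm.sign_permCongr]; decide +kernel,
      by rw [Equiv.Perm.sign_permCongr]; decide +kernel⟩
  · exact ⟨cod.permCongr (mk9 ![0,3,6,2,5,8,1,4,7] ![0,6,3,1,7,4,2,8,5] (by decide) (by decide)),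
      cod.permCongr (mk9 ![0,4,8,5,6,1,7,2,3] ![0,5,7,8,1,3,4,6,2] (by decide) (by decide)),
      by decide +kernel, by rw [Equiv.Perm.sign_permCongr]; decide +kernel,
      by rw [Equiv.Perm.sign_permCongr]; decide +kernel⟩
  · exact ⟨cod.permCongr (mk9 ![0,3,6,4,7,1,8,2,5] ![0,5,7,1,3,8,2,4,6] (by decide) (by decide)),
      cod.permCongr (mk9 ![0,4,8,7,2,3,5,6,1] ![0,8,4,5,1,6,7,3,2] (by decide) (by decide)),
      by decide +kernel, by rw [Equiv.Perm.sign_permCongr]; decide +kernel,
      by rw [Equiv.Perm.sign_permCongr]; decide +kernel⟩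
  · exact ⟨cod.permCongr (mk9 ![0,3,6,7,1,4,5,8,2] ![0,4,8,1,5,6,2,3,7] (by decide) (by decide)),
      cod.permCongr (mk9 ![0,4,8,1,5,6,2,3,7] ![0,3,6,7,1,4,5,8,2] (by decide) (by decide)),
      by decide +kernel, by rw [Equiv.Perm.sign_permCongr]; decide +kernel,
      by rw [Equiv.Perm.sign_permCongr]; decide +kernel⟩

theorem of_cyclic {G : Type u} [Group G] [Finite G] (hG : Nat.card G = 9) (g : G) (hg : orderOf g = 9) :
    AllPar G := by
  let φ : Multiplicative (ZMod 9) →* G :=
    { toFun := fun x => g ^ (Multiplicative.toAdd x).val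
      map_one' := by
        change g ^ (0 : ZMod 9).val = 1
        simp
      map_mul' := by
        intro x y
        change g ^ (Multiplicative.toAdd x + Multiplicative.toAdd y).val = _
        rw [ZMod.val_add, ← pow_add]
        have h := pow_mod_orderOf g ((Multiplicative.toAdd x).val + (Multiplicative.toAdd y).val)
        rw [hg] at h
        exact h }
  have hinj : Function.Injective φ := by
    rw [injective_iff_map_eq_one]
    intro x hx
    have h1 : g ^ (Multiplicative.toAdd x).val = 1 := hx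
    have h2 := orderOf_dvd_of_pow_eq_one h1
    rw [hg] at h2
    have h3 := Nat.eq_zero_of_dvd_of_lt h2 (ZMod.val_lt _)
    have h4 : Multiplicative.toAdd x = 0 := (ZMod.val_eq_zero _).mp h3
    exact h4
  have hbij : Function.Bijective φ := by
    apply (Nat.bijective_iff_injective_and_card φ).mpr
    refine ⟨hinj, ?_⟩
    rw [hG]
    change Nat.card (ZMod 9) = 9
    exact Nat.card_zmod 9
  exact transport ((Multiplicative.ofAdd).trans (Equiv.ofBijective φ hbij)) (fun x y => φ.map_mul _ _) ap9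

theorem of_elementary {G : Type u} [Group G] [Finite G] (hG : Nat.card G = 9) (hcomm : ∀ a b : G, a * b = b * a)
    (h3 : ∀ g : G, g ^ 3 = 1) : AllPar G := by
  have hnt : Nontrivial G := Finite.one_lt_card_iff_nontrivial.mp (by rw [hG]; norm_num)
  obtain ⟨a, ha⟩ := exists_ne (1:G)
  have ho : ∀ g : G, g ≠ 1 → orderOf g = 3 := fun g hg => orderOf_eq_prime (h3 g) hg
  obtain ⟨b, hb⟩ : ∃ b : G, b ∉ Subgroup.zpowers a := by
    by_contra hc
    have h1 : Subgroup.zpowers a = ⊤ := by
      rw [eq_top_iff]; intro x _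
      by_contra hx
      exact hc ⟨x, hx⟩
    have h2 : Nat.card (Subgroup.zpowers a) = 3 := by rw [Nat.card_zpowers, ho a ha]
    rw [h1, Subgroup.card_top, hG] at h2
    norm_num at h2
  have hb1 : b ≠ 1 := by
    rintro rfl
    exact hb (Subgroup.one_mem _)
  have hcom : Commute a b := hcomm a b
  have hmod : ∀ (g : G) (x y : ZMod 3), g ^ (x + y).val = g ^ x.val * g ^ y.val := by
    intro g x y
    rw [ZMod.val_add, ← pow_add, ← pow_mod_orderOf, ← pow_mod_orderOf g (x.val + y.val)]
    congr 1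
    exact Nat.mod_mod_of_dvd _ (orderOf_dvd_of_pow_eq_one (h3 g))
  let φ : Multiplicative (ZMod 3 × ZMod 3) →* G :=
    { toFun := fun x => a ^ (Multiplicative.toAdd x).1.val * b ^ (Multiplicative.toAdd x).2.val
      map_one' := by
        change a ^ (0 : ZMod 3).val * b ^ (0 : ZMod 3).val = 1
        simp
      map_mul' := by
        intro x y
        change a ^ ((Multiplicative.toAdd x).1 + (Multiplicative.toAdd y).1).val *
          b ^ ((Multiplicative.toAdd x).2 + (Multiplicative.toAdd y).2).val = _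
        rw [hmod, hmod]
        have h1 : Commute (a ^ (Multiplicative.toAdd y).1.val) (b ^ (Multiplicative.toAdd x).2.val) :=
          hcom.pow_pow _ _
        rw [mul_assoc, ← mul_assoc (a ^ (Multiplicative.toAdd y).1.val), h1.eq]
        simp only [mul_assoc] }
  have hinj : Function.Injective φ := by
    rw [injective_iff_map_eq_one]
    intro x hx
    obtain ⟨i, j⟩ := x
    have h1 : a ^ i.val * b ^ j.val = 1 := hx
    by_cases hj : j = 0
    · rw [hj, ZMod.val_zero, pow_zero, mul_one] at h1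
      have h2 := orderOf_dvd_of_pow_eq_one h1
      rw [ho a ha] at h2
      have h4 := Nat.eq_zero_of_dvd_of_lt h2 (ZMod.val_lt _)
      have h5 : i = 0 := (ZMod.val_eq_zero _).mp h4
      rw [h5, hj]; rfl
    · exfalso
      have h2 : b ^ j.val ∈ Subgroup.zpowers a := by
        have : b ^ j.val = (a ^ i.val)⁻¹ := (inv_eq_of_mul_eq_one_right h1).symm
        rw [this]
        exact Subgroup.inv_mem _ (Subgroup.npow_mem_zpowers a _)
      have h4 : j.val = 1 ∨ j.val = 2 := by
        have h5 := j.val_lt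
        have h6 : j.val ≠ 0 := fun h => hj ((ZMod.val_eq_zero _).mp h)
        omega
      rcases h4 with h4 | h4
      · rw [h4, pow_one] at h2
        exact hb h2
      · rw [h4] at h2
        apply hb
        have h5 : b = (b ^ 2) ^ 2 := by
          rw [← pow_mul]
          change b = b ^ (3 + 1)
          rw [pow_add, h3, one_mul, pow_one]
        rw [h5]
        exact Subgroup.pow_mem _ h2 2
  have hbij : Function.Bijective φ := by
    apply (Nat.bijective_iff_injective_and_card φ).mpr
    refine ⟨hinj, ?_⟩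
    rw [hG]
    change Nat.card (ZMod 3 × ZMod 3) = 9
    rw [Nat.card_prod, Nat.card_zmod]
  exact transport ((Multiplicative.ofAdd).trans (Equiv.ofBijective φ hbij)) (fun x y => φ.map_mul _ _) ap33

theorem t_NIN : S_NIN.{u} := by
  intro G _ _ hG
  by_cases h : ∃ g : G, orderOf g = 9
  · obtain ⟨g, hg⟩ := h
    exact of_cyclic hG g hg
  · have h9 : Nat.card G = 3 ^ 2 := by rw [hG]; norm_num
    have : Fact (Nat.Prime 3) := ⟨Nat.prime_three⟩
    have hcomm : ∀ a b : G, a * b = b * a := IsPGroup.commutative_of_card_eq_prime_sq h9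
    apply of_elementary hG hcomm
    intro g
    have h1 : orderOf g ∣ 3 ^ 2 := by rw [← h9]; exact orderOf_dvd_natCard g
    obtain ⟨k, hk, hk2⟩ := (Nat.dvd_prime_pow Nat.prime_three).mp h1
    have h2 : k ≠ 2 := by
      rintro rfl
      exact h ⟨g, by rw [hk2]; norm_num⟩
    apply orderOf_dvd_iff_pow_eq_one.mp
    rw [hk2]
    have h3 : k ≤ 1 := by omega
    exact (pow_dvd_pow 3 h3).trans (by norm_num)

end Pool.Agent.Y994.PAR
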